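import Mathlib
import Pool.Agent.H15.G.R_seed8.TH745.MN.Defs
import Pool.Agent.H15.G.R_seed8.TH387.SH.Two
import Pool.Agent.H15.G.R_seed8.TH603.EL.FinB

/-! Independence and emptiness on the triangle of a node. -/

set_option autoImplicit false

namespace Pool.Agent.TH962.MN

open Finset Pool.Agent.TH176.Nag Pool.Agent.TH603.Sur Pool.Agent.TH745.MN

open Pool.Agent.TH181.NagM in
theorem Sur_site {κ : Type} [Fintype κ] {w : κ → ℕ} {c : ℕ} (hc : ∀ j, w j ≤ c + 1) {M : ℕ}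
    (hM : 1 ≤ M) {x y B t : ℝ} (hx : 0 < x) (hy : 0 < y) (q : ℤ) (hq : 4 * M * y + q = t)
    (ht : 0 < t) (hfront : 4 * M * x ≤ q) (hn : t ^ 2 ≤ Fintype.card κ * (4 * M * (x + y)))
    (hB : t ^ 2 / (4 * M * (x + y)) + ((∑ j, max (w j) c : ℕ) : ℝ) < t * (B + 4 * M) / (4 * M)) :
    Sur w {m : ℤ × ℤ | 0 ≤ m.2 ∧ -(y * (B - 4 * M * m.2)) < (m.1 : ℝ) ∧
      (m.1 : ℝ) < x * (B - 4 * M * m.2)} := by
  have hM' : (0 : ℝ) < M := by exact_mod_cast hM
  obtain ⟨σ, hσ⟩ : ∃ σ : ℝ, σ = 4 * M * (x + y) := ⟨_, rfl⟩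
  have hσ0 : 0 < σ := by rw [hσ]; positivity
  rw [← hσ] at hn hB
  obtain ⟨n, hndef⟩ : ∃ n : ℝ, n = t ^ 2 / σ := ⟨_, rfl⟩
  have hn0 : 0 < n := by rw [hndef]; positivity
  have hcard : n ≤ Fintype.card κ := by
    rw [hndef, div_le_iff₀ hσ0]; exact hn
  obtain ⟨S, hS⟩ : ∃ S : ℝ, S = ((∑ j, max (w j) c : ℕ) : ℝ) := ⟨_, rfl⟩
  have hS0 : 0 ≤ S := by rw [hS]; positivity
  rw [← hS, ← hndef] at hB
  have hsn : 0 < √n := Real.sqrt_pos.2 hn0
  have hsσ : 0 < √σ := Real.sqrt_pos.2 hσ0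
  have hsσ2 : √σ * √σ = σ := Real.mul_self_sqrt hσ0.le
  have hnσ : √n = t / √σ := by
    rw [hndef, Real.sqrt_div (sq_nonneg _), Real.sqrt_sq ht.le]
  obtain ⟨c1, hc1⟩ : ∃ c1 : ℝ, c1 = (n + S) / √n := ⟨_, rfl⟩
  have hc10 : 0 ≤ c1 := by rw [hc1]; positivity
  have h1 : SP w c1 0 n := by
    refine Pool.Agent.TH387.SH.SP_final' w c hc hn0 hcard ?_
    rw [hc1, div_mul_cancel₀ _ hsn.ne', ← hS]
  have hcl := SP_closed (w := w) hc10
  have h2 : SP w c1 t (n - t) := by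
    have e : t + (n - t) = n := by ring
    refine (Mv.toRT (μ := t) (ν := n - t) (by rw [e]; exact hn0)).closed hcl ?_
    rw [e]
    exact h1
  have h3 : SP w c1 (4 * M * y) (4 * M * x) := by
    refine hcl.stepA 1 q isCoprime_one_left (by norm_num) (by push_cast; linarith)
      (by push_cast; linarith) (by rw [hσ] at hσ0; linarith) ?_
    have e1 : ((1 : ℤ) : ℝ) * (((1 : ℤ) : ℝ) * (4 * M * y) + (q : ℝ)) = t := by
      push_cast; linarith
    have e2 : ((q : ℝ) - ((1 : ℤ) : ℝ) * (4 * M * x)) * (((1 : ℤ) : ℝ) * (4 * M * y) +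
        (q : ℝ)) / (4 * M * y + 4 * M * x) = n - t := by
      have e3 : (4 * M * y + 4 * M * x : ℝ) = σ := by rw [hσ]; ring
      have e4 : ((1 : ℤ) : ℝ) * (4 * M * y) + (q : ℝ) = t := by push_cast; linarith
      have e5 : (q : ℝ) - ((1 : ℤ) : ℝ) * (4 * M * x) = t - σ := by
        rw [← e3]; push_cast; linarith
      rw [e3, e4, e5, hndef]
      field_simp
    rw [e1, e2]
    exact h2
  obtain ⟨E, hE⟩ : ∃ E : ℝ, E = √σ * (B + 4 * M) / (4 * M) := ⟨_, rfl⟩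
  have hcE : c1 < E := by
    rw [hc1, hnσ, hE, div_div_eq_mul_div, div_lt_iff₀ ht]
    have h5 : (n + S) * √σ < t * (B + 4 * M) / (4 * M) * √σ := mul_lt_mul_of_pos_right hB hsσ
    have h6 : t * (B + 4 * M) / (4 * M) * √σ = √σ * (B + 4 * M) / (4 * M) * t := by ring
    rw [← h6]
    exact h5
  have h4 := h3.2 E hcE (-(y * (B + 4 * M)))
  have e7 : (4 * M * y + 4 * M * x : ℝ) = σ := by rw [hσ]; ring
  have e8 : -(y * (B + 4 * M)) + E * √σ = x * (B + 4 * M) := by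
    have : E * √σ = (√σ * √σ) * (B + 4 * M) / (4 * M) := by rw [hE]; ring
    rw [this, hsσ2, hσ]
    field_simp
    ring
  rw [e7, e8] at h4
  refine h4.shift 0 1 ?_
  rintro ⟨a, b⟩ ⟨h5, h6, h7⟩
  simp only at h5 h6 h7
  refine ⟨by simp only; omega, ?_, ?_⟩
  · simp only
    push_cast
    linarith
  · simp only
    push_cast
    linarith

open Pool.Agent.TH181.Nag in
theorem Emp_site {κ : Type} [Fintype κ] {w : κ → ℕ} {M : ℕ} (hM : 1 ≤ M) {x y B t : ℝ}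
    (hx : 0 < x) (hy : 0 < y) (q : ℤ) (hq : 4 * M * y + q = t) (ht : 0 < t)
    (hfront : 4 * M * x ≤ q) (hn : t ^ 2 = Fintype.card κ * (4 * M * (x + y))) (hB : 0 < B)
    (hw : t * B / (4 * M) < ((∑ j, w j : ℕ) : ℝ)) :
    Emp w (Reg (-(y * B)) (x * B) (4 * M * y) (4 * M * x)) := by
  have hM' : (0 : ℝ) < M := by exact_mod_cast hM
  obtain ⟨σ, hσ⟩ : ∃ σ : ℝ, σ = 4 * M * (x + y) := ⟨_, rfl⟩
  have hσ0 : 0 < σ := by rw [hσ]; positivity
  have hsσ : 0 < √σ := Real.sqrt_pos.2 hσ0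
  have hsσ2 : √σ * √σ = σ := Real.mul_self_sqrt hσ0.le
  rw [← hσ] at hn
  have hcard : (Fintype.card κ : ℝ) = t ^ 2 / σ := by
    rw [eq_div_iff hσ0.ne']; exact hn.symm
  have hnσ : √(Fintype.card κ : ℝ) = t / √σ := by
    rw [hcard, Real.sqrt_div (sq_nonneg _), Real.sqrt_sq ht.le]
  have hσt : σ ≤ t := by rw [hσ, ← hq]; linarith
  have h1 : PS (√(Fintype.card κ)) κ (4 * M * y) (4 * M * x) := by
    refine PS.stepA 1 q isCoprime_one_left (by norm_num) (by push_cast; linarith)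
      (by push_cast; linarith) (by rw [hσ] at hσ0; linarith) ?_
    have e1 : ((1 : ℤ) : ℝ) * (((1 : ℤ) : ℝ) * (4 * M * y) + (q : ℝ)) = t := by
      push_cast; linarith
    have e2 : ((q : ℝ) - ((1 : ℤ) : ℝ) * (4 * M * x)) * (((1 : ℤ) : ℝ) * (4 * M * y) +
        (q : ℝ)) / (4 * M * y + 4 * M * x) = t ^ 2 / σ - t := by
      have e3 : (4 * M * y + 4 * M * x : ℝ) = σ := by rw [hσ]; ring
      have e4 : ((1 : ℤ) : ℝ) * (4 * M * y) + (q : ℝ) = t := by push_cast; linarith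
      have e5 : (q : ℝ) - ((1 : ℤ) : ℝ) * (4 * M * x) = t - σ := by
        rw [← e3]; push_cast; linarith
      rw [e3, e4, e5]
      field_simp
    rw [e1, e2]
    refine PS.final ht.le ?_ (by rw [hcard]; ring)
    rw [sub_nonneg, le_div_iff₀ hσ0, sq]
    exact mul_le_mul_of_nonneg_left hσt ht.le
  obtain ⟨E, hE⟩ : ∃ E : ℝ, E = √σ * B / (4 * M) := ⟨_, rfl⟩
  have hE0 : 0 < E := by rw [hE]; positivity
  have h2 : √(Fintype.card κ : ℝ) * E < ∑ i, (w i : ℝ) := by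
    have e3 : √(Fintype.card κ : ℝ) * E = t * B / (4 * M) := by
      rw [hnσ, hE]
      field_simp
    rw [e3]
    push_cast at hw
    exact hw
  have h3 := h1 w E hE0 h2 (-(y * B))
  have e7 : (4 * M * y + 4 * M * x : ℝ) = σ := by rw [hσ]; ring
  have e8 : -(y * B) + E * √σ = x * B := by
    have : E * √σ = (√σ * √σ) * B / (4 * M) := by rw [hE]; ring
    rw [this, hsσ2, hσ]
    field_simp
    ring
  rw [e7, e8] at h3
  exact h3

end Pool.Agent.TH962.MN
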